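import Pool.Agent.TH222.RG.Main

set_option autoImplicit false

/-! # Fan-Raspaud for bridgeless cubic graphs of cutwidth at most six

MGraph and dg are in Pool.Agent.Helper347.SabDefs (starting files), cut is in
Pool.Agent.TH697.CW6.Gr, IsRGraph and CutwidthLE are in Pool.Agent.TH222.RG.Fin. -/

open Finset
open Pool.Agent.Helper347.Sab
open Pool.Agent.TH222.RG

namespace Pool.Agent.Results.MP_79b960_co.CutwidthSix

/-- A cubic graph in which every odd set of vertices is left by at least three edges, of cutwidth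
at most 6, has three perfect matchings with empty intersection. -/
theorem result {V E : Type} [Fintype V] [DecidableEq V] [Fintype E] [DecidableEq E]
    (G : MGraph V E) (hG : IsRGraph G 3) (hw : CutwidthLE G 6) :
    ∃ M₁ M₂ M₃ : Finset E, (∀ v, dg G M₁ v = 1) ∧ (∀ v, dg G M₂ v = 1) ∧
      (∀ v, dg G M₃ v = 1) ∧ M₁ ∩ M₂ ∩ M₃ = ∅ := by
  obtain ⟨P, hP, h2⟩ := main G 3 hG hw
  refine ⟨P ⟨0, by norm_num⟩, P ⟨1, by norm_num⟩, P ⟨2, by norm_num⟩, hP _, hP _, hP _, ?_⟩
  rw [eq_empty_iff_forall_notMem]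
  intro e he
  rw [mem_inter, mem_inter] at he
  have h3 : ({⟨0, by norm_num⟩, ⟨1, by norm_num⟩, ⟨2, by norm_num⟩} : Finset (Fin (2 * 3))) ⊆
      univ.filter (fun i => e ∈ P i) := by
    intro i hi
    simp only [mem_insert, mem_singleton] at hi
    rw [mem_filter]
    rcases hi with rfl | rfl | rfl
    · exact ⟨mem_univ _, he.1.1⟩
    · exact ⟨mem_univ _, he.1.2⟩
    · exact ⟨mem_univ _, he.2⟩
  have h4 := card_le_card h3
  rw [h2 e] at h4
  exact absurd h4 (by decide)

end Pool.Agent.Results.MP_79b960_co.CutwidthSix
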