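import Pool.Agent.TH467.OC.Count

/-!
# The Fan–Raspaud conjecture for cubic graphs with few odd cuts in perfect matchings

Multigraphs with edge set `E`, the ends of the edge `e` are `a e` and `b e`.

* `delta a b X`: the cut `δ(X)`, the edges with exactly one end in `X`.
* `PM a b M`: `M` is a perfect matching.
* `OddCut a b D`: `D = δ(X)` for a set `X` with an odd number of vertices.
* `badCuts a b`: the odd cuts `D` which are contained in a perfect matching and contain no other odd cut.

Proof.  Choose `M₁` with small weighted average of the numbers `|M₁ ∩ D|`, `D` bad (Edmonds' theorem, all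
edges have probability `1/3`), and then `M₂` in the same way, with weights depending on `M₁`, such that
`|M₁ ∩ D| + |M₂ ∩ D| ≤ 2 |D| - 4` for all bad cuts.  Then `(2 - M₁ - M₂) / 4` is in the perfect matching
polytope, so some perfect matching avoids `M₁ ∩ M₂`.
-/

set_option autoImplicit false

namespace Pool.Agent.Results.MP_79b960_co.FewOddCuts

open Finset Pool.Agent.TH467.OC

/-- A loopless cubic graph without bridges has three perfect matchings with empty intersection, if the
bad cuts `D` satisfy `∑ (|D| - 3) / (|D| - 1) < 9`, in particular if at most nine bad cuts have five or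
more edges, or if at most seventeen have five edges and none has more. -/
theorem result {V E : Type} [Fintype V] [DecidableEq V] [Fintype E] [DecidableEq E] (a b : E → V)
    (noloop : ∀ e, a e ≠ b e)
    (cubic : ∀ v, (univ.filter fun e => a e = v ∨ b e = v).card = 3)
    (bridgeless : ∀ X : Finset V, (delta a b X).card ≠ 1)
    (few : ∑ D ∈ badCuts a b, ((D.card : ℝ) - 3) / (D.card - 1) < 9 ∨
      ((badCuts a b).filter fun D => 5 ≤ D.card).card ≤ 9 ∨
      (((badCuts a b).filter fun D => 5 ≤ D.card).card ≤ 17 ∧ ∀ D ∈ badCuts a b, D.card ≤ 5)) :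
    ∃ M₁ M₂ M₃, PM a b M₁ ∧ PM a b M₂ ∧ PM a b M₃ ∧ M₁ ∩ M₂ ∩ M₃ = ∅ :=
  three_of_few (rg_three noloop cubic bridgeless) few

end Pool.Agent.Results.MP_79b960_co.FewOddCuts
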