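import Pool.Agent.TH455.TFA.RG

set_option autoImplicit false

/-! # Three perfect matchings with empty intersection

A finite graph, parallel edges allowed, has vertex set `V` and edge set `E`; the ends of the edge
`e` are `src e` and `dst e`. -/

namespace Pool.Agent.Results.MP_79b960_co.TreewidthFour

open Finset

/-- the simple graph in which two distinct vertices are adjacent if an edge in `F` joins them -/
def under {V E : Type} (src dst : E → V) (F : Set E) : SimpleGraph V where
  Adj x y := x ≠ y ∧ ∃ e ∈ F, (src e = x ∧ dst e = y) ∨ (src e = y ∧ dst e = x)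
  symm := ⟨fun _ _ h => ⟨h.1.symm, h.2.imp fun _ he => ⟨he.1, he.2.symm⟩⟩⟩
  loopless := ⟨fun _ h => h.1 rfl⟩

/-- the edge `e` is a bridge: its ends are not connected by the other edges -/
def IsBridge {V E : Type} (src dst : E → V) (e : E) : Prop :=
  ¬ (under src dst {e' | e' ≠ e}).Reachable (src e) (dst e)

/-- tree decomposition of the graph, with bags `bag i` for the nodes `i` of the tree `T` -/
def IsTreeDecomposition {V E ι : Type} (src dst : E → V) (T : SimpleGraph ι)
    (bag : ι → Finset V) : Prop :=
  T.IsTree ∧ (∀ v, ∃ i, v ∈ bag i) ∧ (∀ e, ∃ i, src e ∈ bag i ∧ dst e ∈ bag i) ∧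
    ∀ (i j : ι) (p : T.Walk i j), p.IsPath → ∀ k ∈ p.support, ∀ v, v ∈ bag i → v ∈ bag j →
      v ∈ bag k

/-- the treewidth is at most `k` -/
def TreewidthLE {V E : Type} (src dst : E → V) (k : ℕ) : Prop :=
  ∃ (ι : Type) (_ : Fintype ι) (T : SimpleGraph ι) (bag : ι → Finset V),
    IsTreeDecomposition src dst T bag ∧ ∀ i, (bag i).card ≤ k + 1

/-- every vertex has degree three, where a loop counts twice -/
def IsCubic {V E : Type} [DecidableEq V] [Fintype E] (src dst : E → V) : Prop :=
  ∀ v, ∑ e, ((if src e = v then 1 else 0) + (if dst e = v then 1 else 0)) = 3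

/-- the set of edges `M` is a perfect matching: every vertex has degree one in it -/
def IsPerfectMatching {V E : Type} [DecidableEq V] (src dst : E → V) (M : Finset E) : Prop :=
  ∀ v, ∑ e ∈ M, ((if src e = v then 1 else 0) + (if dst e = v then 1 else 0)) = 1

/-- **Theorem.** A bridgeless cubic graph of treewidth at most four has three perfect matchings
with empty intersection. -/
theorem result (V E : Type) [Fintype V] [DecidableEq V] [Fintype E] [DecidableEq E]
    (src dst : E → V) (hc : IsCubic src dst) (hB : ∀ e, ¬ IsBridge src dst e)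
    (hT : TreewidthLE src dst 4) :
    ∃ M₁ M₂ M₃ : Finset E, IsPerfectMatching src dst M₁ ∧ IsPerfectMatching src dst M₂ ∧
      IsPerfectMatching src dst M₃ ∧ M₁ ∩ M₂ ∩ M₃ = ∅ := by
  obtain ⟨P, hP, h2⟩ := TH455.TFA.six_pm (TH455.TFA.six_tw hB hT) hc
  refine ⟨P 0, P 1, P 2, hP 0, hP 1, hP 2, ?_⟩
  rw [eq_empty_iff_forall_notMem]
  intro e he
  rw [mem_inter, mem_inter] at he
  have h3 : ({0, 1, 2} : Finset (Fin 6)) ⊆ univ.filter (fun i => e ∈ P i) := by
    intro i hi
    simp only [mem_insert, mem_singleton] at hi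
    rw [mem_filter]
    rcases hi with rfl | rfl | rfl
    · exact ⟨mem_univ _, he.1.1⟩
    · exact ⟨mem_univ _, he.1.2⟩
    · exact ⟨mem_univ _, he.2⟩
  have h4 := card_le_card h3
  rw [h2 e] at h4
  exact absurd h4 (by decide)

end Pool.Agent.Results.MP_79b960_co.TreewidthFour
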